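import Mathlib

set_option autoImplicit false

namespace Pool.Agent.Results.MP_2ae949_nt.OmegaInvX

open Finset Filter Topology

/-- The weight `n ^ (-s)`. -/
noncomputable def w (s : ℝ) (n : ℕ) : ℝ := (n : ℝ) ^ (-s)

lemma w_nonneg (s : ℝ) (n : ℕ) : 0 ≤ w s n := Real.rpow_nonneg (Nat.cast_nonneg n) _

lemma w_le_one (s : ℝ) (hs : 0 ≤ s) (n : ℕ) (hn : 1 ≤ n) : w s n ≤ 1 :=
  Real.rpow_le_one_of_one_le_of_nonpos (by exact_mod_cast hn) (by linarith)

lemma w_mul (s : ℝ) (m n : ℕ) : w s (m * n) = w s m * w s n := by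
  unfold w; push_cast; exact Real.mul_rpow (Nat.cast_nonneg m) (Nat.cast_nonneg n)

lemma w_one (s : ℝ) : w s 1 = 1 := by simp [w]

lemma w_pow (s : ℝ) (p e : ℕ) : w s (p ^ e) = w s p ^ e := by
  induction e with
  | zero => simp [w]
  | succ e ih => rw [pow_succ, w_mul, ih, pow_succ]

lemma w_div (s : ℝ) (hs : 0 < s) (n : ℕ) : w s n / n = 1 / (n : ℝ) ^ (1 + s) := by
  rcases Nat.eq_zero_or_pos n with rfl | hn
  · simp [Real.zero_rpow (by linarith : 1 + s ≠ 0)]
  · have h : (0 : ℝ) < n := by exact_mod_cast hn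
    unfold w
    rw [Real.rpow_add h, Real.rpow_one, Real.rpow_neg h.le]
    field_simp

lemma w_diff (s : ℝ) (hs : 0 ≤ s) (n : ℕ) (hn : 1 ≤ n) : |w s n - w s (n + 1)| ≤ s / n := by
  have h : (0 : ℝ) < n := by exact_mod_cast hn
  have e : w s (n + 1) = w s n * Real.exp (-(s * Real.log (1 + 1 / n))) := by
    unfold w
    rw [Real.rpow_def_of_pos h, Real.rpow_def_of_pos (by positivity), ← Real.exp_add]
    congr 1
    have : ((n + 1 : ℕ) : ℝ) = n * (1 + 1 / n) := by push_cast; field_simp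
    rw [this, Real.log_mul h.ne' (by positivity)]
    ring
  have l0 : 0 ≤ Real.log (1 + 1 / n) := Real.log_nonneg (by
    have : (0 : ℝ) ≤ 1 / n := by positivity
    linarith)
  have l1 : Real.log (1 + 1 / n) ≤ 1 / n := by
    have := Real.log_le_sub_one_of_pos (x := 1 + 1 / (n : ℝ)) (by positivity)
    linarith
  set u := s * Real.log (1 + 1 / n) with hu
  have u0 : 0 ≤ u := mul_nonneg hs l0
  have u1 : u ≤ s / n := by
    rw [hu, div_eq_mul_one_div s]
    exact mul_le_mul_of_nonneg_left l1 hs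
  have e1 : Real.exp (-u) ≤ 1 := Real.exp_le_one_iff.2 (by linarith)
  have e2 := Real.add_one_le_exp (-u)
  have w0 := w_nonneg s n
  have w1 := w_le_one s hs n hn
  rw [e, abs_of_nonneg (by nlinarith)]
  nlinarith

lemma abel (f : ℕ → ℂ) (v : ℕ → ℂ) (M : ℕ) :
    ∑ n ∈ range (M + 1), f n * v n = (∑ n ∈ range (M + 1), f n) * v (M + 1) +
      ∑ n ∈ range (M + 1), (∑ k ∈ range (n + 1), f k) * (v n - v (n + 1)) := by
  induction M with
  | zero => simp; ring
  | succ M ih =>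
    rw [Finset.sum_range_succ _ (M + 1), ih, Finset.sum_range_succ _ (M + 1),
      Finset.sum_range_succ (fun n => (∑ k ∈ range (n + 1), f k) * (v n - v (n + 1))) (M + 1),
      Finset.sum_range_succ f (M + 1)]
    ring

lemma sum_inv_sq (M : ℕ) : ∑ n ∈ range (M + 1), 1 / (n : ℝ) ^ 2 ≤ 2 := by
  have : ∀ M : ℕ, ∑ n ∈ range (M + 2), 1 / (n : ℝ) ^ 2 ≤ 2 - 1 / ((M : ℝ) + 1) := by
    intro M
    induction M with
    | zero => simp [Finset.sum_range_succ]; norm_num
    | succ M ih =>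
      rw [Finset.sum_range_succ]
      push_cast
      have h : (0 : ℝ) < M + 1 := by positivity
      have : 1 / ((M : ℝ) + 2) ^ 2 ≤ 1 / ((M : ℝ) + 1) - 1 / ((M : ℝ) + 1 + 1) := by
        rw [div_sub_div _ _ (by positivity) (by positivity), div_le_div_iff₀ (by positivity)
          (by positivity)]
        nlinarith
      linarith
  have h1 := this M
  rw [Finset.sum_range_succ] at h1
  have h2 : (0 : ℝ) ≤ 1 / ((M + 1 : ℕ) : ℝ) ^ 2 := by positivity
  have h3 : (0 : ℝ) ≤ 1 / ((M : ℝ) + 1) := by positivity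
  linarith

lemma summable_w (f : ℕ → ℂ) (C : ℝ) (hC : ∀ n, ‖f n‖ ≤ C / n) (s : ℝ) (hs : 0 < s) :
    Summable (fun n => ‖f n * (w s n : ℂ)‖) := by
  refine Summable.of_nonneg_of_le (fun n => norm_nonneg _) (fun n => ?_)
    ((Real.summable_one_div_nat_rpow.2 (by linarith : 1 < 1 + s)).mul_left C)
  rw [norm_mul, Complex.norm_real, Real.norm_of_nonneg (w_nonneg s n), ← w_div s hs]
  refine (mul_le_mul_of_nonneg_right (hC n) (w_nonneg s n)).trans_eq ?_
  ring

lemma upper (f : ℕ → ℂ) (C C' : ℝ) (hC : ∀ n, ‖f n‖ ≤ C / n)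
    (hS : ∀ n : ℕ, ‖∑ k ∈ range (n + 1), f k‖ ≤ C' / n) (s : ℝ) (hs : 0 < s) :
    ‖∑' n, f n * (w s n : ℂ)‖ ≤ 2 * C' * s := by
  have hC0 : 0 ≤ C' := by
    have := (norm_nonneg _).trans (hS 1)
    simpa using this
  have h1 := ((summable_w f C hC s hs).of_norm.hasSum.tendsto_sum_nat.comp
    (tendsto_add_atTop_nat 1)).norm
  have h2 : Tendsto (fun M : ℕ => C' / (M : ℝ) + 2 * C' * s) atTop (𝓝 (0 + 2 * C' * s)) :=
    (tendsto_const_div_atTop_nhds_zero_nat C').add_const _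
  rw [zero_add] at h2
  refine le_of_tendsto_of_tendsto' h1 h2 (fun M => ?_)
  simp only [Function.comp]
  rw [abel f (fun n => (w s n : ℂ)) M]
  refine (norm_add_le _ _).trans (add_le_add ?_ ?_)
  · rw [norm_mul, Complex.norm_real, Real.norm_of_nonneg (w_nonneg s _)]
    exact (mul_le_of_le_one_right (norm_nonneg _) (w_le_one s hs.le _ (by omega))).trans (hS M)
  · refine (norm_sum_le _ _).trans ?_
    refine le_trans (Finset.sum_le_sum (g := fun n : ℕ => C' * s * (1 / (n : ℝ) ^ 2))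
      (fun n _ => ?_)) ?_
    · rw [norm_mul, ← Complex.ofReal_sub, Complex.norm_real, Real.norm_eq_abs]
      rcases Nat.eq_zero_or_pos n with rfl | hn
      · have := hS 0
        simp only [Nat.cast_zero, div_zero] at this
        rw [le_antisymm this (norm_nonneg _)]
        simp
      · refine (mul_le_mul (hS n) (w_diff s hs.le n hn) (abs_nonneg _) (by positivity)).trans_eq ?_
        ring
    · rw [← Finset.mul_sum]
      have := mul_le_mul_of_nonneg_left (sum_inv_sq M) (mul_nonneg hC0 hs.le)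
      linarith

lemma local_lower (f : ℕ → ℂ) (h1 : f 1 = 1) (s : ℝ) (hs : 0 < s) (p : ℕ) (hp : 2 ≤ p)
    (hf : ∀ n, p ≤ n → ‖f n‖ ≤ 1 / (4 * n)) :
    1 ≤ ‖∑' e, f (p ^ e) * (w s (p ^ e) : ℂ)‖ ^ 2 * ∑' e : ℕ, 1 / ((p ^ e : ℕ) : ℝ) ^ (1 + s) := by
  have hpr : (2 : ℝ) ≤ p := by exact_mod_cast hp
  set x := w s p / p with hx
  have x0 : 0 ≤ x := div_nonneg (w_nonneg s p) (by linarith)
  have x1 : x ≤ 1 / 2 := by
    rw [hx, div_le_iff₀ (by linarith)]
    linarith [w_le_one s hs.le p (by omega)]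
  have e1 : ∀ e : ℕ, 1 / ((p ^ e : ℕ) : ℝ) ^ (1 + s) = x ^ e := fun e => by
    rw [← w_div s hs, w_pow, hx, div_pow]; push_cast; rfl
  simp_rw [e1]
  rw [tsum_geometric_of_lt_one x0 (by linarith)]
  have b : ∀ e : ℕ, ‖f (p ^ (e + 1)) * (w s (p ^ (e + 1)) : ℂ)‖ ≤ x / 4 * (1 / 2) ^ e := by
    intro e
    rw [norm_mul, Complex.norm_real, Real.norm_of_nonneg (w_nonneg s _)]
    have hle : p ≤ p ^ (e + 1) := Nat.le_self_pow (by omega) p
    refine (mul_le_mul_of_nonneg_right (hf _ hle) (w_nonneg s _)).trans ?_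
    have : 1 / (4 * ((p ^ (e + 1) : ℕ) : ℝ)) * w s (p ^ (e + 1)) = x / 4 * x ^ e := by
      rw [w_pow, hx, div_pow]; push_cast; field_simp; ring
    rw [this]
    exact mul_le_mul_of_nonneg_left (pow_le_pow_left₀ x0 x1 e) (by positivity)
  have hg : HasSum (fun e : ℕ => x / 4 * (1 / 2 : ℝ) ^ e) (x / 4 * 2) :=
    hasSum_geometric_two.mul_left _
  have hsum : Summable (fun e => f (p ^ e) * (w s (p ^ e) : ℂ)) :=
    (summable_nat_add_iff 1).1 (Summable.of_norm_bounded hg.summable b)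
  have t := tsum_of_norm_bounded hg b
  rw [hsum.tsum_eq_zero_add]
  simp only [pow_zero, h1, w_one, Complex.ofReal_one, mul_one]
  set R := ∑' e, f (p ^ (e + 1)) * (w s (p ^ (e + 1)) : ℂ) with hR
  have l : 1 - x / 2 ≤ ‖1 + R‖ := by
    have := norm_sub_norm_le (1 : ℂ) (-R)
    rw [norm_one, norm_neg, sub_neg_eq_add] at this
    linarith
  have l2 : (1 - x / 2) ^ 2 ≤ ‖1 + R‖ ^ 2 := pow_le_pow_left₀ (by linarith) l 2
  rw [← div_eq_mul_inv, le_div_iff₀ (by linarith)]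
  nlinarith

lemma lower (f : ℕ → ℂ) (h0 : f 0 = 0) (h1 : f 1 = 1)
    (hmul : ∀ {m n : ℕ}, Nat.Coprime m n → f (m * n) = f m * f n)
    (C : ℝ) (hC : ∀ n, ‖f n‖ ≤ C / n) (N : ℕ) (hf : ∀ n, N ≤ n → ‖f n‖ ≤ 1 / (4 * n))
    (s : ℝ) (hs : 0 < s) :
    ‖∏ p ∈ N.primesBelow, ∑' e, f (p ^ e) * (w s (p ^ e) : ℂ)‖ ^ 2 ≤
      ‖∑' n, f n * (w s n : ℂ)‖ ^ 2 * ∑' n : ℕ, 1 / (n : ℝ) ^ (1 + s) := by
  have e1 := EulerProduct.eulerProduct (f := fun n => f n * (w s n : ℂ))
    (by simp [h1, w_one]) (fun {m n} h => by rw [hmul h, w_mul]; push_cast; ring)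
    (summable_w f C hC s hs) (by simp [h0])
  have hz : Summable (fun n : ℕ => 1 / (n : ℝ) ^ (1 + s)) :=
    Real.summable_one_div_nat_rpow.2 (by linarith)
  have e2 := EulerProduct.eulerProduct (f := fun n : ℕ => 1 / (n : ℝ) ^ (1 + s))
    (by simp) (fun {m n} _ => by
      push_cast
      rw [Real.mul_rpow (Nat.cast_nonneg m) (Nat.cast_nonneg n)]
      simp [mul_comm]) hz.norm (by simp [Real.zero_rpow (by linarith : 1 + s ≠ 0)])
  refine ge_of_tendsto ((e1.norm.pow 2).mul e2) ?_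
  filter_upwards [eventually_ge_atTop N] with n hn
  have hsub : N.primesBelow ⊆ n.primesBelow := fun p hp =>
    Nat.mem_primesBelow.2 ⟨(Nat.mem_primesBelow.1 hp).1.trans_le hn, (Nat.mem_primesBelow.1 hp).2⟩
  rw [norm_prod, norm_prod, ← Finset.prod_pow, ← Finset.prod_pow, ← Finset.prod_mul_distrib,
    ← Finset.prod_sdiff hsub]
  refine le_trans ?_ (le_mul_of_one_le_left (Finset.prod_nonneg (fun p _ => by positivity))
    (Finset.one_le_prod (fun p hp => ?_)))
  · refine Finset.prod_le_prod (fun p _ => by positivity) (fun p hp => ?_)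
    refine le_mul_of_one_le_right (by positivity) ?_
    have hp1 := (Nat.mem_primesBelow.1 hp).2.one_lt
    have hs' := hz.comp_injective (Nat.pow_right_injective hp1)
    have := hs'.le_tsum 0 (fun j _ => by simp only [Function.comp]; positivity)
    simpa using this
  · obtain ⟨hp1, hp2⟩ := Finset.mem_sdiff.1 hp
    have hpp := (Nat.mem_primesBelow.1 hp1).2
    have hNp : N ≤ p := by
      by_contra h
      exact hp2 (Nat.mem_primesBelow.2 ⟨not_le.1 h, hpp⟩)
    exact local_lower f h1 s hs p hpp.two_le (fun n hn => hf n (hNp.trans hn))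

lemma exists_const (a : ℕ → ℝ) (c : ℝ) (N : ℕ) (h0 : a 0 = 0) (ha : ∀ n, 0 ≤ a n)
    (h : ∀ n, N ≤ n → a n ≤ c / n) : ∃ C : ℝ, ∀ n : ℕ, a n ≤ C / n := by
  refine ⟨|c| + ∑ k ∈ range N, k * a k, fun n => ?_⟩
  have hs0 : 0 ≤ ∑ k ∈ range N, (k : ℝ) * a k :=
    Finset.sum_nonneg (fun k _ => mul_nonneg (Nat.cast_nonneg k) (ha k))
  rcases Nat.eq_zero_or_pos n with rfl | hn
  · simp [h0]
  have hn' : (0 : ℝ) < n := by exact_mod_cast hn
  by_cases hN : N ≤ n
  · refine (h n hN).trans (div_le_div_of_nonneg_right ?_ hn'.le)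
    linarith [le_abs_self c]
  · rw [le_div_iff₀ hn']
    have := Finset.single_le_sum (f := fun k : ℕ => (k : ℝ) * a k)
      (fun k _ => mul_nonneg (Nat.cast_nonneg k) (ha k)) (Finset.mem_range.2 (not_le.1 hN))
    have h2 := abs_nonneg c
    linarith

lemma core (f : ℕ → ℂ) (h0 : f 0 = 0) (h1 : f 1 = 1)
    (hmul : ∀ {m n : ℕ}, Nat.Coprime m n → f (m * n) = f m * f n)
    (hloc : ∀ p : ℕ, p.Prime → ∃ L : ℂ, L ≠ 0 ∧
      Tendsto (fun K : ℕ => ∑ k ∈ range K, f (p ^ k)) atTop (𝓝 L))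
    (N : ℕ) (hS : ∀ n : ℕ, N ≤ n → ‖∑ k ∈ range (n + 1), f k‖ ≤ 1 / 9 / n) : False := by
  have hf : ∀ n, N + 5 ≤ n → ‖f n‖ ≤ 1 / (4 * n) := by
    intro n hn
    obtain ⟨m, rfl⟩ : ∃ m, n = m + 1 := ⟨n - 1, by omega⟩
    have e : f (m + 1) = ∑ k ∈ range (m + 1 + 1), f k - ∑ k ∈ range (m + 1), f k := by
      rw [Finset.sum_range_succ _ (m + 1)]; ring
    rw [e]
    refine (norm_sub_le _ _).trans ((add_le_add (hS _ (by omega)) (hS _ (by omega))).trans ?_)
    have hm : (4 : ℝ) ≤ m := by exact_mod_cast (by omega : 4 ≤ m)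
    push_cast
    rw [div_add_div _ _ (by positivity) (by positivity), div_le_div_iff₀ (by positivity)
      (by positivity)]
    nlinarith
  obtain ⟨C, hC⟩ := exists_const (fun n => ‖f n‖) (1 / 4) (N + 5) (by simp [h0])
    (fun n => norm_nonneg _) (fun n hn => (hf n hn).trans_eq (by rw [div_div]))
  obtain ⟨C', hC'⟩ := exists_const (fun n => ‖∑ k ∈ range (n + 1), f k‖) (1 / 9) N
    (by simp [h0]) (fun n => norm_nonneg _) hS
  have hC0 : 0 ≤ C := by
    have := (norm_nonneg _).trans (hC 1)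
    simpa using this
  have hb : ∀ p : ℕ, p.Prime → ∀ e : ℕ, ‖f (p ^ e)‖ ≤ C * (1 / 2) ^ e := by
    intro p hp e
    refine (hC _).trans ?_
    have : (2 : ℝ) ≤ p := by exact_mod_cast hp.two_le
    push_cast
    rw [div_eq_mul_one_div, ← one_div_pow]
    exact mul_le_mul_of_nonneg_left (pow_le_pow_left₀ (by positivity)
      (one_div_le_one_div_of_le (by norm_num) this) e) hC0
  have hg : Summable (fun e : ℕ => C * (1 / 2 : ℝ) ^ e) := summable_geometric_two.mul_left C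
  have hne : ∀ p : ℕ, p.Prime → ∑' e, f (p ^ e) ≠ 0 := by
    intro p hp
    obtain ⟨L, hL, hL2⟩ := hloc p hp
    rw [tendsto_nhds_unique (Summable.of_norm_bounded hg (hb p hp)).hasSum.tendsto_sum_nat hL2]
    exact hL
  have hcont : ∀ p ∈ (N + 5).primesBelow,
      Tendsto (fun s : ℝ => ∑' e, f (p ^ e) * (w s (p ^ e) : ℂ)) (𝓝[>] 0)
        (𝓝 (∑' e, f (p ^ e))) := by
    intro p hp
    have hpp := (Nat.mem_primesBelow.1 hp).2
    refine tendsto_tsum_of_dominated_convergence hg (fun e => ?_) ?_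
    · have hpos : (0 : ℝ) < ((p ^ e : ℕ) : ℝ) := by exact_mod_cast pow_pos hpp.pos e
      have c1 : Continuous (fun s : ℝ => f (p ^ e) * (w s (p ^ e) : ℂ)) := by
        refine continuous_const.mul (Complex.continuous_ofReal.comp ?_)
        exact (Real.continuous_const_rpow hpos.ne').comp continuous_neg
      have := (c1.tendsto 0).mono_left (nhdsWithin_le_nhds (s := Set.Ioi 0))
      simpa [w] using this
    · filter_upwards [self_mem_nhdsWithin] with s hs e
      rw [norm_mul, Complex.norm_real, Real.norm_of_nonneg (w_nonneg s _)]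
      exact (mul_le_of_le_one_right (norm_nonneg _) (w_le_one s (le_of_lt hs) _
        (pow_pos hpp.pos e))).trans (hb p hpp e)
  have t1 := (tendsto_finsetProd _ hcont).norm.pow 2
  have t2 : Tendsto (fun s : ℝ => (1 + s - 1) * ∑' n : ℕ, 1 / (n : ℝ) ^ (1 + s)) (𝓝[>] 0)
      (𝓝 1) := by
    refine tendsto_sub_mul_tsum_nat_rpow.comp (f := fun s : ℝ => 1 + s) ?_
    refine tendsto_nhdsWithin_iff.2 ⟨?_, ?_⟩
    · have : Continuous (fun s : ℝ => 1 + s) := by fun_prop
      simpa using (this.tendsto 0).mono_left (nhdsWithin_le_nhds (s := Set.Ioi 0))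
    · filter_upwards [self_mem_nhdsWithin] with s hs
      simpa using hs
  have t3 : Tendsto (fun s : ℝ => (4 * C' ^ 2 * s) *
      ((1 + s - 1) * ∑' n : ℕ, 1 / (n : ℝ) ^ (1 + s))) (𝓝[>] 0) (𝓝 ((4 * C' ^ 2 * 0) * 1)) := by
    refine Tendsto.mul ?_ t2
    have : Continuous (fun s : ℝ => 4 * C' ^ 2 * s) := by fun_prop
    exact (this.tendsto 0).mono_left nhdsWithin_le_nhds
  have t4 := le_of_tendsto_of_tendsto t1 t3 (by
    filter_upwards [self_mem_nhdsWithin] with s hs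
    have hs' : 0 < s := hs
    refine (lower f h0 h1 hmul C hC (N + 5) hf s hs').trans ?_
    have u := pow_le_pow_left₀ (norm_nonneg _) (upper f C C' hC hC' s hs') 2
    refine (mul_le_mul_of_nonneg_right u (tsum_nonneg (fun n => by positivity))).trans_eq ?_
    ring)
  have t5 : 0 < ‖∏ p ∈ (N + 5).primesBelow, ∑' e, f (p ^ e)‖ :=
    norm_pos_iff.2 (Finset.prod_ne_zero_iff.2 (fun p hp => hne p (Nat.mem_primesBelow.1 hp).2))
  have := pow_pos t5 2
  simp only [mul_zero, zero_mul] at t4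
  linarith

/-- For every MO function `f` (multiplicative, sum zero, all local sums convergent and nonzero)
the quantity `x * |∑_{n ≤ x} f n|` exceeds `1 / 9` for arbitrarily large real `x`. -/
theorem result (f : ℕ → ℂ) (h1 : f 1 = 1)
    (hmul : ∀ m n : ℕ, 0 < m → 0 < n → Nat.Coprime m n → f (m * n) = f m * f n)
    (_hsum : Tendsto (fun N : ℕ => ∑ n ∈ Finset.Icc 1 N, f n) atTop (𝓝 0))
    (hloc : ∀ p : ℕ, p.Prime → ∃ L : ℂ, L ≠ 0 ∧
      Tendsto (fun K : ℕ => ∑ k ∈ Finset.range K, f (p ^ k)) atTop (𝓝 L)) :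
    ∃ᶠ x : ℝ in atTop, 1 / 9 < x * ‖∑ n ∈ Finset.Icc 1 ⌊x⌋₊, f n‖ := by
  by_contra hcon
  rw [not_frequently] at hcon
  obtain ⟨N, hN⟩ := eventually_atTop.1 (tendsto_natCast_atTop_atTop (R := ℝ) |>.eventually hcon)
  set g : ℕ → ℂ := fun n => if n = 0 then 0 else f n with hg
  have hgs : ∀ n, ∑ k ∈ range (n + 1), g k = ∑ k ∈ Finset.Icc 1 n, f k := by
    intro n
    induction n with
    | zero => simp [hg]
    | succ n ih =>
      rw [Finset.sum_range_succ, ih, Finset.sum_Icc_succ_top (by omega)]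
      simp [hg]
  refine core g (by simp [hg]) (by simp [hg, h1]) (fun {m n} h => ?_) (fun p hp => ?_) (N + 1)
    (fun n hn => ?_)
  · rcases Nat.eq_zero_or_pos m with rfl | hm
    · simp [hg]
    rcases Nat.eq_zero_or_pos n with rfl | hn
    · simp [hg]
    simp only [hg, if_neg hm.ne', if_neg hn.ne', if_neg (Nat.mul_pos hm hn).ne']
    exact hmul m n hm hn h
  · simp only [hg, if_neg (pow_pos hp.pos _).ne']
    exact hloc p hp
  · have h := hN n (by omega)
    rw [Nat.floor_natCast, not_lt] at h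
    rw [hgs, le_div_iff₀ (by exact_mod_cast (by omega : 0 < n))]
    linarith

end Pool.Agent.Results.MP_2ae949_nt.OmegaInvX
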